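import Mathlib
import Pool.Agent.H576.CT.Stm

set_option autoImplicit false

/-! # The far field sum (task FAR of the project CT) -/

namespace Pool.Agent.H169

open Finset Pool.Agent.TH112.BW Pool.Agent.H576.CT

theorem far_term {b : ℝ} (hb0 : 0 < b) (hb1 : b < 1) {ρ v : ℕ} (hρ : 1 ≤ ρ)
    (hv : (v : ℝ) ^ 8 * b ^ (16 * ρ) ≤ 1) (m : ℕ) :
    (v : ℝ) ^ (m + 1) * b ^ (m * (16 * ρ) - 6 * ρ) ≤ v * b ^ m := by
  have hv0 : (0 : ℝ) ≤ v := Nat.cast_nonneg v
  rcases Nat.eq_zero_or_pos m with h0 | h0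
  · subst h0
    simp
  · set e : ℕ := m * (16 * ρ) - 6 * ρ with he
    have hmr : ρ ≤ m * ρ := Nat.le_mul_of_pos_left ρ h0
    have hmm : m ≤ m * ρ := Nat.le_mul_of_pos_right m hρ
    have h1 : m * (16 * ρ) = 16 * (m * ρ) := by ring
    have h2 : 16 * ρ * m + 8 * m ≤ 8 * e := by
      have h3 : 16 * ρ * m = 16 * (m * ρ) := by ring
      omega
    have h4 : ((v : ℝ) ^ m * b ^ e) ^ 8 ≤ (b ^ m) ^ 8 := by
      have h5 : ((v : ℝ) ^ m * b ^ e) ^ 8 =
          ((v : ℝ) ^ 8 * b ^ (16 * ρ)) ^ m * b ^ (8 * e - 16 * ρ * m) := by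
        have h6 : b ^ (8 * e) = b ^ (16 * ρ * m) * b ^ (8 * e - 16 * ρ * m) := by
          rw [← pow_add]
          congr 1
          omega
        rw [mul_pow, mul_pow, ← pow_mul, ← pow_mul, ← pow_mul, ← pow_mul, mul_comm e 8, h6,
          mul_comm m 8]
        ring
      have h7 : ((v : ℝ) ^ 8 * b ^ (16 * ρ)) ^ m ≤ 1 := pow_le_one₀ (by positivity) hv
      have h8 : b ^ (8 * e - 16 * ρ * m) ≤ b ^ (8 * m) :=
        pow_le_pow_of_le_one hb0.le hb1.le (by omega)
      have h9 : (0 : ℝ) ≤ b ^ (8 * e - 16 * ρ * m) := by positivity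
      rw [h5, ← pow_mul, mul_comm m 8]
      calc ((v : ℝ) ^ 8 * b ^ (16 * ρ)) ^ m * b ^ (8 * e - 16 * ρ * m) ≤
          1 * b ^ (8 * e - 16 * ρ * m) := mul_le_mul_of_nonneg_right h7 h9
        _ ≤ b ^ (8 * m) := by rw [one_mul]; exact h8
    have h10 : (v : ℝ) ^ m * b ^ e ≤ b ^ m :=
      le_of_pow_le_pow_left₀ (by norm_num) (by positivity) h4
    calc (v : ℝ) ^ (m + 1) * b ^ e = v * ((v : ℝ) ^ m * b ^ e) := by ring
      _ ≤ v * b ^ m := mul_le_mul_of_nonneg_left h10 hv0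

theorem ct_far (h : S_BALLS) : S_FAR := by
  intro V _ _ G _ hG b hb0 hb1 ρ v hρ hball hv a
  obtain ⟨-, hB⟩ := h V G hG
  have hv0 : (0 : ℝ) ≤ v := Nat.cast_nonneg v
  set r : ℕ := 16 * ρ with hr
  have hr0 : 0 < r := by omega
  have hBr := hB r v hball a
  rw [← Finset.sum_fiberwise_of_maps_to (s := univ) (t := univ.image fun x => G.dist x a / r)
    (g := fun x => G.dist x a / r) (fun x _ => mem_image_of_mem _ (mem_univ x))]
  have key : ∀ m ∈ univ.image (fun x => G.dist x a / r),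
      ∑ x ∈ univ.filter (fun x => G.dist x a / r = m), b ^ (G.dist x a - 6 * ρ) ≤ v * b ^ m := by
    intro m _
    have h1 : ∀ x ∈ univ.filter (fun x => G.dist x a / r = m),
        b ^ (G.dist x a - 6 * ρ) ≤ b ^ (m * r - 6 * ρ) := by
      intro x hx
      have h2 := (mem_filter.1 hx).2
      have h3 : m * r ≤ G.dist x a := by
        rw [← h2]
        exact Nat.div_mul_le_self _ _
      exact pow_le_pow_of_le_one hb0.le hb1.le (by omega)
    have h4 : (univ.filter (fun x => G.dist x a / r = m)).card ≤ v ^ (m + 1) := by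
      refine (card_le_card ?_).trans (hBr (m + 1))
      intro x hx
      have h2 := (mem_filter.1 hx).2
      unfold ball
      rw [mem_filter]
      refine ⟨mem_univ x, ?_⟩
      rw [G.dist_comm]
      have h5 : G.dist x a / r < m + 1 := by omega
      exact ((Nat.div_lt_iff_lt_mul hr0).1 h5).le
    have h6 : (0 : ℝ) ≤ b ^ (m * r - 6 * ρ) := by positivity
    calc ∑ x ∈ univ.filter (fun x => G.dist x a / r = m), b ^ (G.dist x a - 6 * ρ) ≤
        ∑ _x ∈ univ.filter (fun x => G.dist x a / r = m), b ^ (m * r - 6 * ρ) :=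
          sum_le_sum h1
      _ = ((univ.filter (fun x => G.dist x a / r = m)).card : ℝ) * b ^ (m * r - 6 * ρ) := by
          rw [sum_const, nsmul_eq_mul]
      _ ≤ (v : ℝ) ^ (m + 1) * b ^ (m * r - 6 * ρ) := by
          apply mul_le_mul_of_nonneg_right _ h6
          exact_mod_cast h4
      _ ≤ v * b ^ m := far_term hb0 hb1 hρ hv m
  refine (sum_le_sum key).trans ?_
  rw [← mul_sum]
  have h7 : ∑ m ∈ univ.image (fun x => G.dist x a / r), b ^ m ≤ (1 - b)⁻¹ := by
    rw [← tsum_geometric_of_lt_one hb0.le hb1]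
    exact (summable_geometric_of_lt_one hb0.le hb1).sum_le_tsum _ (fun m _ => by positivity)
  rw [div_eq_mul_inv]
  exact mul_le_mul_of_nonneg_left h7 hv0

end Pool.Agent.H169
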