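import Pool.Agent.H683.CV.Lem

/-!
# Project CV, S_TOP: the sum of the `t` largest values as a minimum
-/

set_option autoImplicit false

namespace Pool.Agent.H169.CVTOP

theorem exT (K : Finset ℕ) (n : ℕ) (v : ℕ → ℕ) (hv : ∀ i ∈ K, v i ≤ n) (t : ℕ) (ht : t ≤ K.card) :
    ∃ T ⊆ K, T.card = t ∧ ∃ l ≤ n, (∀ i ∈ T, l ≤ v i) ∧ ∀ i ∈ K, i ∉ T → v i ≤ l := by
  induction t with
  | zero =>
    exact ⟨∅, Finset.empty_subset _, rfl, n, le_rfl, fun i hi => absurd hi (Finset.notMem_empty i),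
      fun i hi _ => hv i hi⟩
  | succ t ih =>
    obtain ⟨T, hTK, hc, l, hl, h1, h2⟩ := ih (by omega)
    have hne : (K \ T).Nonempty := by
      rw [← Finset.card_pos, Finset.card_sdiff_of_subset hTK]
      omega
    obtain ⟨m, hm, hmax⟩ := Finset.exists_max_image (K \ T) v hne
    rw [Finset.mem_sdiff] at hm
    refine ⟨insert m T, Finset.insert_subset hm.1 hTK, ?_, v m, hv m hm.1, ?_, ?_⟩
    · rw [Finset.card_insert_of_notMem hm.2, hc]
    · intro i hi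
      rcases Finset.mem_insert.1 hi with h | h
      · rw [h]
      · exact (h2 m hm.1 hm.2).trans (h1 i h)
    · intro i hi hiT
      exact hmax i (Finset.mem_sdiff.2 ⟨hi, fun h => hiT (Finset.mem_insert_of_mem h)⟩)

theorem top (K : Finset ℕ) (n t X : ℕ) (v : ℕ → ℕ) (hv : ∀ i ∈ K, v i ≤ n) (ht : t ≤ K.card) :
    ((∀ l ≤ n, X ≤ t * l + ∑ i ∈ K, (v i - l)) ↔ ∃ T ⊆ K, T.card = t ∧ X ≤ ∑ i ∈ T, v i) := by
  constructor
  · intro h
    obtain ⟨T, hTK, hc, l, hl, h1, h2⟩ := exT K n v hv t ht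
    refine ⟨T, hTK, hc, (h l hl).trans (le_of_eq ?_)⟩
    have e1 : ∑ i ∈ K, (v i - l) = ∑ i ∈ T, (v i - l) := by
      symm
      refine Finset.sum_subset hTK fun i hi hiT => ?_
      exact Nat.sub_eq_zero_of_le (h2 i hi hiT)
    have e2 : t * l = ∑ i ∈ T, l := by rw [Finset.sum_const, hc, smul_eq_mul]
    rw [e1, e2, ← Finset.sum_add_distrib]
    exact Finset.sum_congr rfl fun i hi => Nat.add_sub_of_le (h1 i hi)
  · rintro ⟨T, hTK, hc, hX⟩ l _
    have e2 : t * l = ∑ i ∈ T, l := by rw [Finset.sum_const, hc, smul_eq_mul]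
    have e3 : ∑ i ∈ T, (v i - l) ≤ ∑ i ∈ K, (v i - l) :=
      Finset.sum_le_sum_of_subset hTK
    calc X ≤ ∑ i ∈ T, v i := hX
      _ ≤ ∑ i ∈ T, (l + (v i - l)) := Finset.sum_le_sum fun i _ => by omega
      _ = t * l + ∑ i ∈ T, (v i - l) := by rw [Finset.sum_add_distrib, e2]
      _ ≤ t * l + ∑ i ∈ K, (v i - l) := by omega

theorem TOP : Pool.Agent.H683.CV.S_TOP := fun K n t X v hv ht => top K n t X v hv ht

end Pool.Agent.H169.CVTOP
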