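import Pool.Agent.H979.DE.Stm
import Pool.Graph.R_pool_sql_team_ae5b0c61.H41.Derrw3

/-!
# Project DE, S_SUP: supermartingales of the urn at a vertex
-/

set_option autoImplicit false
set_option linter.unusedVariables false

namespace Pool.Agent.H169

open MeasureTheory Finset Filter Pool.Agent.H41.Derrw Pool.Agent.H979.DE
open scoped ENNReal

namespace DESUP

variable {V : Type} [DecidableEq V]

theorem cross_congr' {w w' : ℕ → V} {n : ℕ} (h : ∀ k ≤ n, w k = w' k) (x y : V) :
    cross w n x y = cross w' n x y := by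
  unfold cross
  refine Finset.sum_congr rfl fun k hk => ?_
  rw [mem_range] at hk
  rw [h k (by omega), h (k + 1) (by omega)]

theorem cross_succ' (w : ℕ → V) (n : ℕ) (x y : V) : cross w (n + 1) x y = cross w n x y +
    ((if w n = x ∧ w (n + 1) = y then 1 else 0) - (if w n = y ∧ w (n + 1) = x then 1 else 0)) := by
  unfold cross
  rw [sum_range_succ]

theorem reg_congr {w w' : ℕ → V} {n : ℕ} (h : ∀ k ≤ n + 1, w k = w' k) : Reg w n ↔ Reg w' n := by
  unfold Reg
  rw [cross_congr' (fun k hk => h k (by omega)), h n (by omega), h (n + 1) le_rfl]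

theorem reg_all_congr {w w' : ℕ → V} {n k : ℕ} (h : ∀ j ≤ k, w j = w' j) :
    (∀ i, n ≤ i → i < k → Reg w i) ↔ (∀ i, n ≤ i → i < k → Reg w' i) :=
  forall_congr' fun i => imp_congr_right fun _ => imp_congr_right fun hi =>
    reg_congr fun l hl => h l (by omega)

theorem cnt_congr {w w' : ℕ → V} {n k : ℕ} (h : ∀ j ≤ k, w j = w' j) (x y : V) :
    cnt w n k x y = cnt w' n k x y := by
  classical
  unfold cnt
  congr 1
  refine Finset.filter_congr fun j hj => ?_
  rw [mem_Ico] at hj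
  rw [reg_all_congr (k := j) (fun l hl => h l (by omega)), h j (by omega), h (j + 1) (by omega)]

open Classical in
theorem cnt_succ (w : ℕ → V) {n k : ℕ} (x y : V) (hnk : n ≤ k) :
    cnt w n (k + 1) x y = cnt w n k x y +
      if (∀ i, n ≤ i → i < k → Reg w i) ∧ w k = x ∧ w (k + 1) = y then 1 else 0 := by
  unfold cnt
  rw [card_filter, card_filter, sum_Ico_succ_top hnk]

theorem cnt_self (w : ℕ → V) (n : ℕ) (x y : V) : cnt w n n x y = 0 := by
  unfold cnt
  simp

theorem cross_cnt {w x₀ : ℕ → V} {n k a : ℕ} {x y : V} (hw : w ∈ cyl x₀ n) (hnk : n ≤ k)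
    (ha : cross x₀ n x y = a) (h1 : 1 ≤ a) (hg : ∀ i, n ≤ i → i < k → Reg w i) :
    cross w k x y = a + cnt w n k x y := by
  classical
  induction k, hnk using Nat.le_induction with
  | base =>
    rw [cross_congr' hw, ha, cnt_self]
    simp
  | succ k hnk ih =>
    have ih := ih fun i hi hik => hg i hi (by omega)
    rw [cross_succ', ih, cnt_succ w x y hnk]
    have hR := hg k hnk (Nat.lt_succ_self k)
    have h2 : ¬ (w k = y ∧ w (k + 1) = x) := by
      rintro ⟨e1, e2⟩
      unfold Reg at hR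
      rw [e1, e2, cross_neg, ih] at hR
      omega
    rw [if_neg h2]
    by_cases h3 : w k = x ∧ w (k + 1) = y
    · rw [if_pos h3, if_pos ⟨fun i hi hik => hg i hi (by omega), h3⟩]
      push_cast
      ring
    · rw [if_neg h3, if_neg (fun h => h3 h.2)]
      simp

omit [DecidableEq V] in
theorem upd_eq (w : ℕ → V) (k : ℕ) (u : V) : ∀ j ≤ k, Function.update w (k + 1) u j = w j :=
  fun j hj => Function.update_of_ne (by omega) _ _

open Classical in
theorem upd_cnt (w : ℕ → V) {n k : ℕ} (x y u : V) (hnk : n ≤ k) :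
    cnt (Function.update w (k + 1) u) n (k + 1) x y = cnt w n k x y +
      if ((∀ i, n ≤ i → i < k → Reg w i) ∧ w k = x) ∧ u = y then 1 else 0 := by
  have hiff : ((∀ i, n ≤ i → i < k → Reg (Function.update w (k + 1) u) i) ∧
      Function.update w (k + 1) u k = x ∧ Function.update w (k + 1) u (k + 1) = y) ↔
      (((∀ i, n ≤ i → i < k → Reg w i) ∧ w k = x) ∧ u = y) := by
    rw [reg_all_congr (upd_eq w k u), upd_eq w k u k le_rfl, Function.update_self, and_assoc]
  rw [cnt_succ _ x y hnk, cnt_congr (upd_eq w k u)]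
  by_cases h : ((∀ i, n ≤ i → i < k → Reg w i) ∧ w k = x) ∧ u = y
  · rw [if_pos (hiff.2 h), if_pos h]
  · rw [if_neg (fun h' => h (hiff.1 h')), if_neg h]

theorem wt_nat {γ : ℝ} {α : ℕ} (h : 1 ≤ α) : wt γ ((α : ℕ) : ℤ) = (α : ℝ) ^ γ := by
  unfold wt
  rw [if_pos (by omega)]
  push_cast
  rfl

variable {G : SimpleGraph V} [G.LocallyFinite] {γ : ℝ}

theorem key (hG : ∀ x, ∃ y, G.Adj x y) {x y z : V} {x₀ : ℕ → V} {n a b : ℕ} (hxy : G.Adj x y)
    (hxz : G.Adj x z) (hyz : y ≠ z) (ha : cross x₀ n x y = a) (hb : cross x₀ n x z = b)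
    (h1a : 1 ≤ a) (h1b : 1 ≤ b) {Ψ : ℕ → ℕ → ℝ}
    (hΨ : ∀ α β : ℕ, 1 ≤ α → 1 ≤ β → (α : ℝ) ^ γ * (Ψ (α + 1) β - Ψ α β) +
      (β : ℝ) ^ γ * (Ψ α (β + 1) - Ψ α β) ≤ 0) {k : ℕ} (hnk : n ≤ k) {w : ℕ → V}
    (hw : w ∈ cyl x₀ n) :
    ∑ u ∈ G.neighborFinset (w k), trans G γ w k u *
      Ψ (a + cnt (Function.update w (k + 1) u) n (k + 1) x y)
        (b + cnt (Function.update w (k + 1) u) n (k + 1) x z) ≤
      Ψ (a + cnt w n k x y) (b + cnt w n k x z) := by
  classical
  simp only [upd_cnt w _ _ _ hnk]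
  by_cases hc : (∀ i, n ≤ i → i < k → Reg w i) ∧ w k = x
  · obtain ⟨hg, hx⟩ := hc
    have ca := cross_cnt hw hnk ha h1a hg
    have cb := cross_cnt hw hnk hb h1b hg
    have hα : 1 ≤ a + cnt w n k x y := by omega
    have hβ : 1 ≤ b + cnt w n k x z := by omega
    have hq := hΨ _ _ hα hβ
    obtain ⟨α, eα⟩ : ∃ α, α = a + cnt w n k x y := ⟨_, rfl⟩
    obtain ⟨β, eβ⟩ : ∃ β, β = b + cnt w n k x z := ⟨_, rfl⟩
    have e : ∀ u, Ψ (a + (cnt w n k x y +
        if ((∀ i, n ≤ i → i < k → Reg w i) ∧ w k = x) ∧ u = y then 1 else 0))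
        (b + (cnt w n k x z +
          if ((∀ i, n ≤ i → i < k → Reg w i) ∧ w k = x) ∧ u = z then 1 else 0)) =
        Ψ α β + (if u = y then Ψ (α + 1) β - Ψ α β else 0) +
          (if u = z then Ψ α (β + 1) - Ψ α β else 0) := by
      intro u
      by_cases h1 : u = y
      · have h2 : u ≠ z := fun h => hyz (h1.symm.trans h)
        rw [if_pos ⟨⟨hg, hx⟩, h1⟩, if_neg (fun h => h2 h.2), if_pos h1, if_neg h2, ← add_assoc,
          ← eα, add_zero, ← eβ]
        ring
      · by_cases h2 : u = z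
        · rw [if_neg (fun h => h1 h.2), if_pos ⟨⟨hg, hx⟩, h2⟩, if_neg h1, if_pos h2, add_zero,
            ← eα, ← add_assoc, ← eβ]
          ring
        · rw [if_neg (fun h => h1 h.2), if_neg (fun h => h2 h.2), if_neg h1, if_neg h2, add_zero,
            ← eα, add_zero, ← eβ]
          ring
    rw [← eα, ← eβ] at hq ⊢
    rw [← eα] at hα
    rw [← eβ] at hβ
    have s1 : ∑ u ∈ G.neighborFinset (w k), trans G γ w k u *
        Ψ (a + (cnt w n k x y +
        if ((∀ i, n ≤ i → i < k → Reg w i) ∧ w k = x) ∧ u = y then 1 else 0))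
        (b + (cnt w n k x z +
          if ((∀ i, n ≤ i → i < k → Reg w i) ∧ w k = x) ∧ u = z then 1 else 0)) =
        Ψ α β + trans G γ w k y * (Ψ (α + 1) β - Ψ α β) +
          trans G γ w k z * (Ψ α (β + 1) - Ψ α β) := by
      rw [Finset.sum_congr rfl fun u _ => by rw [e u, mul_add, mul_add], sum_add_distrib,
        sum_add_distrib, ← sum_mul, trans_sum hG, one_mul]
      simp only [mul_ite, mul_zero, Finset.sum_ite_eq']
      rw [if_pos (by rw [hx]; simpa using hxy), if_pos (by rw [hx]; simpa using hxz)]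
    rw [s1]
    obtain ⟨W, hW⟩ : ∃ W, W = ∑ u ∈ G.neighborFinset (w k), wt γ (cross w k (w k) u) := ⟨_, rfl⟩
    have hW0 : 0 < W := by
      rw [hW]
      exact sum_pos (fun _ _ => wt_pos _ _) ⟨y, by rw [hx]; simpa using hxy⟩
    have t1 : trans G γ w k y = (α : ℝ) ^ γ / W := by
      unfold Pool.Agent.H41.Derrw.trans
      rw [if_pos (by rw [hx]; exact hxy), ← hW, hx, ca, ← wt_nat hα, eα]
      push_cast
      rfl
    have t2 : trans G γ w k z = (β : ℝ) ^ γ / W := by
      unfold Pool.Agent.H41.Derrw.trans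
      rw [if_pos (by rw [hx]; exact hxz), ← hW, hx, cb, ← wt_nat hβ, eβ]
      push_cast
      rfl
    rw [t1, t2]
    have e2 : Ψ α β + (α : ℝ) ^ γ / W * (Ψ (α + 1) β - Ψ α β) +
        (β : ℝ) ^ γ / W * (Ψ α (β + 1) - Ψ α β) = Ψ α β + ((α : ℝ) ^ γ * (Ψ (α + 1) β - Ψ α β) +
          (β : ℝ) ^ γ * (Ψ α (β + 1) - Ψ α β)) / W := by
      field_simp
      ring
    rw [e2]
    have h0 := div_nonpos_of_nonpos_of_nonneg hq hW0.le
    linarith
  · refine le_of_eq ?_
    have e : ∀ u, Ψ (a + (cnt w n k x y +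
        if ((∀ i, n ≤ i → i < k → Reg w i) ∧ w k = x) ∧ u = y then 1 else 0))
        (b + (cnt w n k x z +
          if ((∀ i, n ≤ i → i < k → Reg w i) ∧ w k = x) ∧ u = z then 1 else 0)) =
        Ψ (a + cnt w n k x y) (b + cnt w n k x z) := by
      intro u
      rw [if_neg (fun h => hc h.1), if_neg (fun h => hc h.1), add_zero, add_zero]
    rw [Finset.sum_congr rfl fun u _ => by rw [e u], ← sum_mul, trans_sum hG, one_mul]

/-- the shifted function on the cylinder -/
noncomputable def FF (Ψ : ℕ → ℕ → ℝ) (C : ℝ) (x₀ : ℕ → V) (n a b : ℕ) (x y z : V) (k : ℕ) :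
    (ℕ → V) → ℝ≥0∞ :=
  (cyl x₀ n).indicator fun w =>
    ENNReal.ofReal (Ψ (a + cnt w n k x y) (b + cnt w n k x z) + C)

theorem step [Countable V] [MeasurableSpace V] [DiscreteMeasurableSpace V] (hO : S_ONE)
    (hG : ∀ x, ∃ y, G.Adj x y) {v : V} {P : Measure (ℕ → V)} (hP : IsLaw G γ v P)
    {x y z : V} {x₀ : ℕ → V} {n a b : ℕ} (hxy : G.Adj x y)
    (hxz : G.Adj x z) (hyz : y ≠ z) (ha : cross x₀ n x y = a) (hb : cross x₀ n x z = b)
    (h1a : 1 ≤ a) (h1b : 1 ≤ b) {Ψ : ℕ → ℕ → ℝ} {C : ℝ} (hC : ∀ α β, |Ψ α β| ≤ C)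
    (hΨ : ∀ α β : ℕ, 1 ≤ α → 1 ≤ β → (α : ℝ) ^ γ * (Ψ (α + 1) β - Ψ α β) +
      (β : ℝ) ^ γ * (Ψ α (β + 1) - Ψ α β) ≤ 0) {k : ℕ} (hnk : n ≤ k) :
    ∫⁻ w, FF Ψ C x₀ n a b x y z (k + 1) w ∂P ≤ ∫⁻ w, FF Ψ C x₀ n a b x y z k w ∂P := by
  have hcyl : ∀ w w' : ℕ → V, (∀ j ≤ n, w j = w' j) → (w ∈ cyl x₀ n ↔ w' ∈ cyl x₀ n) := by
    intro w w' h
    constructor
    · intro hw j hj
      rw [← h j hj]
      exact hw j hj
    · intro hw j hj
      rw [h j hj]
      exact hw j hj
  have hnn : ∀ α β, 0 ≤ Ψ α β + C := fun α β => by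
    have := (abs_le.1 (hC α β)).1
    linarith
  rw [hO V G γ v P hP k _ (fun w w' h => ?_)]
  · refine lintegral_mono fun w => ?_
    by_cases hw : w ∈ cyl x₀ n
    · have hu : ∀ u, Function.update w (k + 1) u ∈ cyl x₀ n := fun u =>
        (hcyl _ _ fun j hj => upd_eq w k u j (by omega)).2 hw
      have e1 : FF Ψ C x₀ n a b x y z k w =
          ENNReal.ofReal (Ψ (a + cnt w n k x y) (b + cnt w n k x z) + C) :=
        Set.indicator_of_mem hw _
      have e2 : ∀ u, FF Ψ C x₀ n a b x y z (k + 1) (Function.update w (k + 1) u) =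
          ENNReal.ofReal (Ψ (a + cnt (Function.update w (k + 1) u) n (k + 1) x y)
            (b + cnt (Function.update w (k + 1) u) n (k + 1) x z) + C) := fun u =>
        Set.indicator_of_mem (hu u) _
      simp only [e2]
      rw [e1, Finset.sum_congr rfl fun u _ => (ENNReal.ofReal_mul (trans_nn w k u)).symm,
        ← ENNReal.ofReal_sum_of_nonneg fun u _ => mul_nonneg (trans_nn w k u) (hnn _ _)]
      refine ENNReal.ofReal_le_ofReal ?_
      have h1 := key hG hxy hxz hyz ha hb h1a h1b hΨ hnk hw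
      simp only [mul_add]
      rw [sum_add_distrib, ← sum_mul, trans_sum hG, one_mul]
      linarith
    · have hu : ∀ u, Function.update w (k + 1) u ∉ cyl x₀ n := fun u h =>
        hw ((hcyl _ _ fun j hj => upd_eq w k u j (by omega)).1 h)
      have e2 : ∀ u, FF Ψ C x₀ n a b x y z (k + 1) (Function.update w (k + 1) u) = 0 := fun u =>
        Set.indicator_of_notMem (hu u) _
      simp only [e2, mul_zero, sum_const_zero]
      exact zero_le
  · have h' := hcyl w w' fun j hj => h j (by omega)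
    unfold FF
    by_cases hw : w ∈ cyl x₀ n
    · rw [Set.indicator_of_mem hw, Set.indicator_of_mem (h'.1 hw), cnt_congr h, cnt_congr h]
    · rw [Set.indicator_of_notMem hw, Set.indicator_of_notMem (fun h1 => hw (h'.2 h1))]

omit [DecidableEq V] in
theorem meas_fin [Countable V] [MeasurableSpace V] [DiscreteMeasurableSpace V] {β : Type}
    [MeasurableSpace β] (v : V) (k : ℕ) (F : (ℕ → V) → β)
    (hF : ∀ w w', (∀ j ≤ k, w j = w' j) → F w = F w') : Measurable F := by
  let r : (ℕ → V) → (Fin (k + 1) → V) := fun w i => w i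
  let e : (Fin (k + 1) → V) → ℕ → V := fun a j => if h : j < k + 1 then a ⟨j, h⟩ else v
  have mr : Measurable r := by fun_prop
  have h1 : F = (fun a => F (e a)) ∘ r := by
    funext w
    refine hF _ _ fun j hj => ?_
    show w j = if h : j < k + 1 then (r w) ⟨j, h⟩ else v
    rw [dif_pos (Nat.lt_succ_of_le hj)]
  rw [h1]
  exact Measurable.of_discrete.comp mr

end DESUP

open DESUP in
theorem de_sup (hO : S_ONE) : S_SUP := by
  intro V _ _ _ _ G _ γ v P hG hP x y z x₀ n a b hxy hxz hyz ha hb h1a h1b Ψ hC hΨ k hnk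
  obtain ⟨C, hC⟩ := hC
  have hPr : IsProbabilityMeasure P := hP.1
  have hnn : ∀ α β, 0 ≤ Ψ α β + C := fun α β => by
    have := (abs_le.1 (hC α β)).1
    linarith
  have hcyl : MeasurableSet (cyl x₀ n) := by
    have h1 : Measurable fun w : ℕ → V => (w ∈ cyl x₀ n) := meas_fin v n _ fun w w' h => by
      refine propext ⟨fun hw j hj => ?_, fun hw j hj => ?_⟩
      · rw [← h j hj]; exact hw j hj
      · rw [h j hj]; exact hw j hj
    exact measurableSet_setOfPred.2 h1
  have hm : ∀ k, Measurable fun w : ℕ → V => Ψ (a + cnt w n k x y) (b + cnt w n k x z) :=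
    fun k => meas_fin v k _ fun w w' h => by rw [cnt_congr h, cnt_congr h]
  -- the integrals are nonincreasing
  have hmon : ∫⁻ w, FF Ψ C x₀ n a b x y z k w ∂P ≤ ∫⁻ w, FF Ψ C x₀ n a b x y z n w ∂P := by
    induction k, hnk using Nat.le_induction with
    | base => exact le_rfl
    | succ k hnk ih => exact (step hO hG hP hxy hxz hyz ha hb h1a h1b hC hΨ hnk).trans ih
  have hn : ∫⁻ w, FF Ψ C x₀ n a b x y z n w ∂P = ENNReal.ofReal (Ψ a b + C) * P (cyl x₀ n) := by
    unfold FF
    rw [lintegral_indicator hcyl]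
    simp only [cnt_self, add_zero]
    rw [setLIntegral_const]
  have hk : ∫⁻ w, FF Ψ C x₀ n a b x y z k w ∂P = ∫⁻ w in cyl x₀ n,
      ENNReal.ofReal (Ψ (a + cnt w n k x y) (b + cnt w n k x z) + C) ∂P := by
    unfold FF
    rw [lintegral_indicator hcyl]
  rw [hn, hk] at hmon
  have hint : Integrable (fun w => Ψ (a + cnt w n k x y) (b + cnt w n k x z))
      (P.restrict (cyl x₀ n)) :=
    Integrable.of_bound (hm k).aestronglyMeasurable C (Filter.Eventually.of_forall fun w => hC _ _)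
  have h1 : ∫ w in cyl x₀ n, (Ψ (a + cnt w n k x y) (b + cnt w n k x z) + C) ∂P ≤
      (Ψ a b + C) * P.real (cyl x₀ n) := by
    rw [integral_eq_lintegral_of_nonneg_ae (Filter.Eventually.of_forall fun w => hnn _ _)
      ((hm k).add_const C).aestronglyMeasurable]
    have h2 := ENNReal.toReal_mono (ENNReal.mul_ne_top ENNReal.ofReal_ne_top (measure_ne_top P _))
      hmon
    rw [ENNReal.toReal_mul, ENNReal.toReal_ofReal (hnn a b)] at h2
    exact h2
  rw [integral_add hint (integrable_const C), setIntegral_const, smul_eq_mul] at h1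
  linarith

end Pool.Agent.H169
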