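import Pool.Agent.H465.OC.StmB
import Pool.Graph.R_pool_sql_team_seeded_3997aac3.Q279.SC.J.COUNT

/-!
# Project OC, task B15 for `p = 5`: `Small 5`
-/

set_option autoImplicit false

namespace Pool.Agent.H169.OCSmall5

open Finset Pool.Agent.Q279.SC

/-! ## The number of points as a character sum -/

theorem card_y {p : ℕ} [Fact p.Prime] (hp : 5 ≤ p) (b c : ZMod p) :
    ((Nat.card {y : ZMod p // y ^ 2 + b * y = c} : ℕ) : ℤ) =
      quadraticChar (ZMod p) (b ^ 2 + 4 * c) + 1 := by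
  have hF : ringChar (ZMod p) ≠ 2 := by rw [ZMod.ringChar_zmod_n]; omega
  have h2 : (2 : ZMod p) ≠ 0 := Ring.two_ne_zero hF
  have e : {y : ZMod p // y ^ 2 + b * y = c} ≃ {z : ZMod p // z ^ 2 = b ^ 2 + 4 * c} :=
    { toFun := fun y => ⟨2 * y.1 + b, by
        have := y.2
        linear_combination 4 * this⟩
      invFun := fun z => ⟨(z.1 - b) / 2, by
        have := z.2
        field_simp
        linear_combination this⟩
      left_inv := fun y => by
        apply Subtype.ext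
        simp only
        field_simp
        ring
      right_inv := fun z => by
        apply Subtype.ext
        simp only
        field_simp
        ring }
  rw [Nat.card_congr e]
  have h1 := quadraticChar_card_sqrts hF (b ^ 2 + 4 * c)
  have h4 : Nat.card {z : ZMod p // z ^ 2 = b ^ 2 + 4 * c} =
      {x : ZMod p | x ^ 2 = b ^ 2 + 4 * c}.toFinset.card := by
    rw [Set.toFinset_card, Nat.card_eq_fintype_card]
    rfl
  rw [h4, h1]

/-- `a_p` is minus the sum of the quadratic character of `x^3 - 27 c_4 x - 54 c_6`. -/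
theorem ap_eq {p : ℕ} [Fact p.Prime] (hp : 5 ≤ p) (W : WeierstrassCurve ℤ)
    (hD : ¬ (p : ℤ) ∣ W.Δ) :
    ap W p = -∑ x : ZMod p, quadraticChar (ZMod p)
      (x ^ 3 - 27 * ((W.c₄ : ℤ) : ZMod p) * x - 54 * ((W.c₆ : ℤ) : ZMod p)) := by
  have hpp : p.Prime := Fact.out
  obtain ⟨V, hV⟩ : ∃ V, V = W.map (Int.castRingHom (ZMod p)) := ⟨_, rfl⟩
  have hVD : V.Δ ≠ 0 := by
    rw [hV, WeierstrassCurve.map_Δ]
    intro h0
    exact hD ((ZMod.intCast_zmod_eq_zero_iff_dvd _ _).1 h0)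
  unfold ap
  rw [← hV, JCOUNT.card_pt V hVD]
  -- the number of affine points
  have hcard : ((Nat.card {xy : ZMod p × ZMod p // xy.2 ^ 2 + V.a₁ * xy.1 * xy.2 +
      V.a₃ * xy.2 = xy.1 ^ 3 + V.a₂ * xy.1 ^ 2 + V.a₄ * xy.1 + V.a₆} : ℕ) : ℤ) =
      ∑ x : ZMod p, (quadraticChar (ZMod p)
        (4 * x ^ 3 + V.b₂ * x ^ 2 + 2 * V.b₄ * x + V.b₆) + 1) := by
    have e : {xy : ZMod p × ZMod p // xy.2 ^ 2 + V.a₁ * xy.1 * xy.2 +
        V.a₃ * xy.2 = xy.1 ^ 3 + V.a₂ * xy.1 ^ 2 + V.a₄ * xy.1 + V.a₆} ≃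
        Σ x : ZMod p, {y : ZMod p // y ^ 2 + (V.a₁ * x + V.a₃) * y =
          x ^ 3 + V.a₂ * x ^ 2 + V.a₄ * x + V.a₆} :=
      { toFun := fun P => ⟨P.1.1, P.1.2, by
          have := P.2
          linear_combination this⟩
        invFun := fun P => ⟨(P.1, P.2.1), by
          have := P.2.2
          simp only
          linear_combination this⟩
        left_inv := fun P => rfl
        right_inv := fun P => rfl }
    rw [Nat.card_congr e, Nat.card_sigma]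
    push_cast
    rw [Finset.sum_congr rfl fun x _ => card_y hp (V.a₁ * x + V.a₃) _]
    refine Finset.sum_congr rfl fun x _ => ?_
    congr 2
    unfold WeierstrassCurve.b₂ WeierstrassCurve.b₄ WeierstrassCurve.b₆
    ring
  -- the cubic
  have h36 : (36 : ZMod p) ≠ 0 := by
    intro h
    have h1 : ((36 : ℕ) : ZMod p) = 0 := by exact_mod_cast h
    rw [ZMod.natCast_eq_zero_iff] at h1
    have h2 : 36 = 2 * (2 * (3 * 3)) := by norm_num
    rw [h2] at h1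
    rcases hpp.dvd_mul.1 h1 with h | h
    · have := Nat.le_of_dvd (by norm_num) h; omega
    rcases hpp.dvd_mul.1 h with h | h
    · have := Nat.le_of_dvd (by norm_num) h; omega
    rcases hpp.dvd_mul.1 h with h | h
    · have := Nat.le_of_dvd (by norm_num) h; omega
    · have := Nat.le_of_dvd (by norm_num) h; omega
  have h3 : (3 : ZMod p) ≠ 0 := by
    intro h
    apply h36
    have : (36 : ZMod p) = 12 * 3 := by norm_num
    rw [this, h, mul_zero]
  have h108 : (108 : ZMod p) ≠ 0 := by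
    have : (108 : ZMod p) = 36 * 3 := by norm_num
    rw [this]
    exact mul_ne_zero h36 h3
  have hc4 : ((W.c₄ : ℤ) : ZMod p) = V.c₄ := by
    rw [hV, WeierstrassCurve.map_c₄]; rfl
  have hc6 : ((W.c₆ : ℤ) : ZMod p) = V.c₆ := by
    rw [hV, WeierstrassCurve.map_c₆]; rfl
  have hterm : ∀ x : ZMod p, quadraticChar (ZMod p)
      (4 * x ^ 3 + V.b₂ * x ^ 2 + 2 * V.b₄ * x + V.b₆) = quadraticChar (ZMod p)
        ((36 * x + 3 * V.b₂) ^ 3 - 27 * V.c₄ * (36 * x + 3 * V.b₂) - 54 * V.c₆) := by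
    intro x
    have e1 : (36 * x + 3 * V.b₂) ^ 3 - 27 * V.c₄ * (36 * x + 3 * V.b₂) - 54 * V.c₆ =
        108 ^ 2 * (4 * x ^ 3 + V.b₂ * x ^ 2 + 2 * V.b₄ * x + V.b₆) := by
      unfold WeierstrassCurve.c₄ WeierstrassCurve.c₆
      ring
    rw [e1, map_mul, quadraticChar_sq_one' h108, one_mul]
  have hbij : ∑ x : ZMod p, quadraticChar (ZMod p)
        ((36 * x + 3 * V.b₂) ^ 3 - 27 * V.c₄ * (36 * x + 3 * V.b₂) - 54 * V.c₆) =
      ∑ x : ZMod p, quadraticChar (ZMod p) (x ^ 3 - 27 * V.c₄ * x - 54 * V.c₆) := by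
    have e : Function.Bijective (fun x : ZMod p => 36 * x + 3 * V.b₂) := by
      rw [Fintype.bijective_iff_injective_and_card]
      refine ⟨fun x y hxy => ?_, rfl⟩
      simp only [add_left_inj] at hxy
      exact mul_left_cancel₀ h36 hxy
    exact Function.Bijective.sum_comp e
      (fun x => quadraticChar (ZMod p) (x ^ 3 - 27 * V.c₄ * x - 54 * V.c₆))
  push_cast
  rw [hcard, Finset.sum_add_distrib, Finset.sum_congr rfl fun x _ => hterm x, hbij, hc4, hc6]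
  simp only [Finset.sum_const, Finset.card_univ, ZMod.card, nsmul_eq_mul, mul_one]
  ring

/-! ## Power series modulo 25 -/

theorem coeff_prod (f g : PowerSeries (ZMod 25)) (a b c : List ℕ) (m : ℕ)
    (hf : ∀ k < m, PowerSeries.coeff k f = ((a.getD k 0 : ℕ) : (ZMod 25)))
    (hg : ∀ k < m, PowerSeries.coeff k g = ((b.getD k 0 : ℕ) : (ZMod 25)))
    (hc : ∀ k < m, (∑ i ∈ range (k + 1), a.getD i 0 * b.getD (k - i) 0) % 25 =
      c.getD k 0 % 25) :
    ∀ k < m, PowerSeries.coeff k (f * g) = ((c.getD k 0 : ℕ) : (ZMod 25)) := by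
  intro k hk
  rw [PowerSeries.coeff_mul, Finset.Nat.sum_antidiagonal_eq_sum_range_succ
    (fun i j => PowerSeries.coeff i f * PowerSeries.coeff j g)]
  have h1 : ∑ i ∈ range (k + 1), PowerSeries.coeff i f * PowerSeries.coeff (k - i) g =
      ((∑ i ∈ range (k + 1), a.getD i 0 * b.getD (k - i) 0 : ℕ) : (ZMod 25)) := by
    push_cast
    refine Finset.sum_congr rfl fun i hi => ?_
    rw [mem_range] at hi
    rw [hf i (by omega), hg (k - i) (by omega)]
  rw [h1]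
  exact (ZMod.natCast_eq_natCast_iff _ _ _).2 (hc k hk)

theorem solve (f g N : PowerSeries (ZMod 25)) (h : f * g = N) (a b c : List ℕ) (m : ℕ)
    (hg : ∀ k < m, PowerSeries.coeff k g = ((b.getD k 0 : ℕ) : (ZMod 25)))
    (hN : ∀ k < m, PowerSeries.coeff k N = ((c.getD k 0 : ℕ) : (ZMod 25)))
    (hb : b.getD 0 0 = 1)
    (hc : ∀ k < m, (∑ i ∈ range (k + 1), a.getD i 0 * b.getD (k - i) 0) % 25 =
      c.getD k 0 % 25) :
    ∀ k < m, PowerSeries.coeff k f = ((a.getD k 0 : ℕ) : (ZMod 25)) := by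
  intro k
  induction k using Nat.strong_induction_on with
  | _ k ih =>
    intro hk
    have h1 := hN k hk
    rw [← h, PowerSeries.coeff_mul, Finset.Nat.sum_antidiagonal_eq_sum_range_succ
      (fun i j => PowerSeries.coeff i f * PowerSeries.coeff j g), Finset.sum_range_succ,
      Nat.sub_self, hg 0 (by omega), hb] at h1
    have h2 : ((c.getD k 0 : ℕ) : (ZMod 25)) =
        ((∑ i ∈ range (k + 1), a.getD i 0 * b.getD (k - i) 0 : ℕ) : (ZMod 25)) :=
      ((ZMod.natCast_eq_natCast_iff _ _ _).2 (hc k hk)).symm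
    rw [h2, Finset.sum_range_succ, Nat.sub_self, hb] at h1
    have h3 : ∑ i ∈ range k, PowerSeries.coeff i f * PowerSeries.coeff (k - i) g =
        ((∑ i ∈ range k, a.getD i 0 * b.getD (k - i) 0 : ℕ) : (ZMod 25)) := by
      push_cast
      refine Finset.sum_congr rfl fun i hi => ?_
      rw [mem_range] at hi
      rw [ih i hi (by omega), hg (k - i) (by omega)]
    rw [h3] at h1
    push_cast at h1 ⊢
    linear_combination h1

def lA : List ℕ := [0, 1, 9, 3, 23, 1, 2, 19, 10, 7, 9, 7, 19, 23, 21, 3, 6, 14, 13, 10, 23, 7, 13, 18, 5, 1]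
def lB : List ℕ := [0, 1, 8, 19, 7, 1, 2, 8, 0, 18, 8, 2, 8, 19, 14, 19, 1, 8, 19, 0, 7, 2, 16, 19, 0, 1]
def lQ : List ℕ := [0, 1, 23, 4, 22, 1, 2, 23, 0, 3, 23, 2, 23, 4, 19, 4, 1, 23, 4, 0, 22, 2, 21, 4, 0, 1]
def lBB : List ℕ := [0, 0, 1, 16, 2, 18, 0, 11, 10, 18, 19, 20, 11, 11, 4, 2, 20, 6, 1, 15, 6, 20, 22, 6, 20, 8]
def lD : List ℕ := [0, 1, 1, 2, 3, 5, 2, 6, 5, 7, 5, 12, 6, 12, 6, 10, 11, 16, 7, 20, 15, 12, 12, 22, 10, 0]
def ld : List ℕ := [1, 1, 2, 3, 5, 2, 6, 5, 7, 5, 12, 6, 12, 6, 10, 11, 16, 7, 20, 15, 12, 12, 22, 10, 0]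
def l4 : List ℕ := [1, 15, 10, 20, 20, 15, 5, 10, 0, 5, 10, 5, 10, 20, 15, 20, 15, 10, 20, 0, 20, 5, 20, 20, 0, 15]
def l43 : List ℕ := [1, 20, 5, 10, 10, 20, 15, 5, 0, 15, 5, 15, 5, 10, 20, 10, 20, 5, 10, 0, 10, 15, 10, 10, 0, 20]
def lN : List ℕ := [1, 16, 2, 13, 10, 7, 6, 20, 22, 10, 2, 1, 12, 21, 20, 11, 11, 2, 5, 5, 12, 7, 22, 15, 0]
def lD1 : List ℕ := [1, 19, 4, 8, 7, 15, 13, 24, 20, 8, 0, 3, 24, 23, 14, 0, 9, 14, 3, 5, 20, 3, 23, 13, 15, 20]
def lF1 : List ℕ := [1, 22, 5, 22, 14, 19, 10, 3, 7, 13, 12, 3, 2, 17, 15, 21, 22, 10, 19, 3, 18, 10, 11, 14, 16]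
def lD2 : List ℕ := [1, 18, 3, 6, 4, 10, 11, 18, 15, 1, 20, 16, 18, 11, 8, 15, 23, 23, 21, 10, 5, 16, 11, 16, 5, 20]
def lF2 : List ℕ := [1, 23, 10, 8, 19, 4, 23, 2, 23, 7, 17, 6, 20, 23, 10, 17, 10, 14, 9, 7, 12, 18, 8, 9, 6]
def lD3 : List ℕ := [1, 17, 2, 4, 1, 5, 9, 12, 10, 19, 15, 4, 12, 24, 2, 5, 12, 7, 14, 15, 15, 4, 24, 19, 20, 20]
def lF3 : List ℕ := [1, 24, 17, 22, 5, 6, 10, 8, 1, 20, 13, 7, 3, 22, 10, 16, 21, 22, 17, 10, 21, 23, 10, 19, 0]
def lD4 : List ℕ := [1, 16, 1, 2, 23, 0, 7, 6, 5, 12, 10, 17, 6, 12, 21, 20, 1, 16, 7, 20, 0, 17, 12, 22, 10, 20]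
def lF4 : List ℕ := [1, 0, 1, 20, 16, 4, 6, 22, 1, 10, 12, 13, 22, 21, 16, 19, 19, 20, 11, 15, 21, 1, 10, 10, 6]

/-- the reduction of a power series -/
noncomputable def red : PowerSeries ℤ →+* PowerSeries (ZMod 25) := PowerSeries.map (Int.castRingHom (ZMod 25))

theorem cA : ∀ k < 26, PowerSeries.coeff k (red zA) = ((lA.getD k 0 : ℕ) : (ZMod 25)) := by
  intro k hk
  have h : ∀ k < 26, (∑ d ∈ k.divisors, d ^ 3) % 25 = lA.getD k 0 % 25 := by decide +kernel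
  unfold red zA
  rw [PowerSeries.coeff_map, PowerSeries.coeff_mk]
  rw [← (ZMod.natCast_eq_natCast_iff _ _ _).2 (h k hk)]
  simp

theorem cB : ∀ k < 26, PowerSeries.coeff k (red zB) = ((lB.getD k 0 : ℕ) : (ZMod 25)) := by
  intro k hk
  have h : ∀ k < 26, (∑ d ∈ k.divisors, d ^ 5) % 25 = lB.getD k 0 % 25 := by decide +kernel
  unfold red zB
  rw [PowerSeries.coeff_map, PowerSeries.coeff_mk]
  rw [← (ZMod.natCast_eq_natCast_iff _ _ _).2 (h k hk)]
  simp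

theorem cQ : ∀ k < 26, PowerSeries.coeff k (red zQ) = ((lQ.getD k 0 : ℕ) : (ZMod 25)) := by
  intro k hk
  have h : ∀ k < 26, (∑ d ∈ k.divisors, ((5 * ((d : ℕ) : ℤ) ^ 3 + 7 * ((d : ℕ) : ℤ) ^ 5) / 12)) % 25 =
      ((lQ.getD k 0 : ℕ) : ℤ) % 25 := by decide +kernel
  unfold red zQ
  rw [PowerSeries.coeff_map, PowerSeries.coeff_mk]
  have h1 := (ZMod.intCast_eq_intCast_iff _ _ 25).2 (h k hk)
  rw [Int.cast_natCast] at h1
  rw [← h1]
  rfl

theorem cBB : ∀ k < 26, PowerSeries.coeff k (red zB * red zB) = ((lBB.getD k 0 : ℕ) : (ZMod 25)) :=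
  coeff_prod _ _ lB lB lBB 26 cB cB (by decide +kernel)

theorem t25 : (25 : PowerSeries (ZMod 25)) = 0 := by
  have h : (25 : PowerSeries (ZMod 25)) = PowerSeries.C (25 : (ZMod 25)) := by
    rw [map_ofNat]
  rw [h, show (25 : (ZMod 25)) = 0 from rfl, map_zero]

theorem redD : red zD = red zQ + 3 * (red zB * red zB) := by
  unfold zD
  simp only [map_add, map_sub, map_mul, map_pow, map_ofNat]
  linear_combination (4 * red zA ^ 2 + 320 * red zA ^ 3 - 6 * red zB ^ 2) * t25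

theorem red4 : red z4 = 1 + 15 * red zA := by
  unfold z4
  simp only [map_add, map_mul, map_one, map_ofNat]
  linear_combination (9 * red zA) * t25

theorem red43 : red z4 ^ 3 = 1 + 20 * red zA := by
  rw [red4]
  linear_combination (red zA + 27 * red zA ^ 2 + 135 * red zA ^ 3) * t25

theorem coeff_ofNat_mul (n : ℕ) [n.AtLeastTwo] (f : PowerSeries (ZMod 25)) (k : ℕ) :
    PowerSeries.coeff k ((OfNat.ofNat n : PowerSeries (ZMod 25)) * f) =
      (OfNat.ofNat n : (ZMod 25)) * PowerSeries.coeff k f := by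
  have h : (OfNat.ofNat n : PowerSeries (ZMod 25)) = PowerSeries.C (OfNat.ofNat n : (ZMod 25)) := by
    rw [map_ofNat]
  rw [h, PowerSeries.coeff_C_mul]

theorem cD : ∀ k < 26, PowerSeries.coeff k (red zD) = ((lD.getD k 0 : ℕ) : (ZMod 25)) := by
  intro k hk
  rw [redD, map_add, coeff_ofNat_mul, cQ k hk, cBB k hk]
  revert k
  decide +kernel

theorem c4 : ∀ k < 26, PowerSeries.coeff k (red z4) = ((l4.getD k 0 : ℕ) : (ZMod 25)) := by
  intro k hk
  rw [red4, map_add, coeff_ofNat_mul, cA k hk, PowerSeries.coeff_one]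
  revert k
  decide +kernel

theorem c43 : ∀ k < 26, PowerSeries.coeff k (red z4 ^ 3) = ((l43.getD k 0 : ℕ) : (ZMod 25)) := by
  intro k hk
  rw [red43, map_add, coeff_ofNat_mul, cA k hk, PowerSeries.coeff_one]
  revert k
  decide +kernel

theorem cd : ∀ k < 25, PowerSeries.coeff k (red zd) = ((ld.getD k 0 : ℕ) : (ZMod 25)) := by
  intro k hk
  have h : PowerSeries.coeff k (red zd) = PowerSeries.coeff (k + 1) (red zD) := by
    unfold red zd
    rw [PowerSeries.coeff_map, PowerSeries.coeff_mk, PowerSeries.coeff_map]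
  rw [h, cD (k + 1) (by omega)]
  clear h
  revert k
  decide +kernel

theorem cN : ∀ k < 25, PowerSeries.coeff k (red z4 * red zd) = ((lN.getD k 0 : ℕ) : (ZMod 25)) :=
  coeff_prod _ _ l4 ld lN 25 (fun k hk => c4 k (by omega)) cd (by decide +kernel)

theorem cDn (n : ℕ) (l : List ℕ) (h : ∀ k < 26, ((l43.getD k 0 : ℕ) : (ZMod 25)) -
    (n : (ZMod 25)) * ((lD.getD k 0 : ℕ) : (ZMod 25)) = ((l.getD k 0 : ℕ) : (ZMod 25))) :
    ∀ k < 26, PowerSeries.coeff k (red z4 ^ 3 - PowerSeries.C (n : (ZMod 25)) * red zD) =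
      ((l.getD k 0 : ℕ) : (ZMod 25)) := by
  intro k hk
  rw [map_sub, PowerSeries.coeff_C_mul, c43 k hk, cD k hk, h k hk]

theorem cPhi (n : ℕ) (l f : List ℕ) (h : ∀ k < 26, ((l43.getD k 0 : ℕ) : (ZMod 25)) -
    (n : (ZMod 25)) * ((lD.getD k 0 : ℕ) : (ZMod 25)) = ((l.getD k 0 : ℕ) : (ZMod 25))) (hl : l.getD 0 0 = 1)
    (hf : ∀ k < 25, (∑ i ∈ range (k + 1), f.getD i 0 * l.getD (k - i) 0) % 25 =
      lN.getD k 0 % 25) (Φ : PowerSeries ℤ)
    (hΦ : Φ * (q4 ℤ ^ 3 - PowerSeries.C (n : ℤ) * qD ℤ) = q4 ℤ * qd ℤ) :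
    ∀ k < 25, ((PowerSeries.coeff k Φ : ℤ) : (ZMod 25)) = ((f.getD k 0 : ℕ) : (ZMod 25)) := by
  have hq4 : q4 ℤ = z4 := by
    unfold q4
    ext k
    simp
  have hqD : qD ℤ = zD := by
    unfold qD
    ext k
    simp
  have hqd : qd ℤ = zd := by
    unfold qd
    ext k
    simp
  rw [hq4, hqD, hqd] at hΦ
  have h1 := congrArg red hΦ
  rw [map_mul, map_mul, map_sub, map_pow, map_mul] at h1
  have h2 : red (PowerSeries.C (n : ℤ)) = PowerSeries.C (n : (ZMod 25)) := by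
    unfold red
    rw [PowerSeries.map_C]
    simp
  rw [h2] at h1
  have h3 := solve (red Φ) _ _ h1 f l lN 25 (fun k hk => cDn n l h k (by omega)) cN hl hf
  intro k hk
  have h4 := h3 k hk
  unfold red at h4
  rw [PowerSeries.coeff_map] at h4
  exact h4

/-! ## The theorem -/

instance fact5 : Fact (Nat.Prime 5) := ⟨by norm_num⟩

theorem chi5 : ∀ a : ZMod 5, quadraticChar (ZMod 5) a =
    if a = 0 then 0 else if a = 1 ∨ a = 4 then 1 else -1 := by
  decide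

/-- the character sum -/
def S5 (x y : ZMod 5) : ℤ := ∑ u : ZMod 5, if u ^ 3 - 27 * x * u - 54 * y = 0 then (0 : ℤ) else
  if u ^ 3 - 27 * x * u - 54 * y = 1 ∨ u ^ 3 - 27 * x * u - 54 * y = 4 then 1 else -1

theorem key (W : WeierstrassCurve ℤ) (n : ℕ) (hD : ¬ (5 : ℤ) ∣ W.Δ) (h4 : ¬ (5 : ℤ) ∣ W.c₄)
    (h6 : ¬ (5 : ℤ) ∣ W.c₆) (hn : (5 : ℤ) ∣ n * W.Δ - W.c₄ ^ 3) (r : ℤ)
    (hr : ∀ x y D : ZMod 5, x ≠ 0 → y ≠ 0 → D ≠ 0 → 1728 * D = x ^ 3 - y ^ 2 →
      (n : ZMod 5) * D = x ^ 3 → S5 x y = r ∨ S5 x y = -r) : ap W 5 ^ 2 = r ^ 2 := by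
  have hD' : ((W.Δ : ℤ) : ZMod 5) ≠ 0 := fun h0 =>
    hD ((ZMod.intCast_zmod_eq_zero_iff_dvd _ 5).1 h0)
  have h4' : ((W.c₄ : ℤ) : ZMod 5) ≠ 0 := fun h0 =>
    h4 ((ZMod.intCast_zmod_eq_zero_iff_dvd _ 5).1 h0)
  have h6' : ((W.c₆ : ℤ) : ZMod 5) ≠ 0 := fun h0 =>
    h6 ((ZMod.intCast_zmod_eq_zero_iff_dvd _ 5).1 h0)
  have hn' : (((n : ℤ) * W.Δ - W.c₄ ^ 3 : ℤ) : ZMod 5) = 0 :=
    (ZMod.intCast_zmod_eq_zero_iff_dvd _ 5).2 hn
  push_cast at hn'
  have hrel : (1728 : ZMod 5) * ((W.Δ : ℤ) : ZMod 5) =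
      ((W.c₄ : ℤ) : ZMod 5) ^ 3 - ((W.c₆ : ℤ) : ZMod 5) ^ 2 := by
    have := congrArg (fun z : ℤ => (z : ZMod 5)) W.c_relation
    push_cast at this
    exact this
  have h := hr _ _ _ h4' h6' hD' hrel (by linear_combination hn')
  have e : ap W 5 = -S5 ((W.c₄ : ℤ) : ZMod 5) ((W.c₆ : ℤ) : ZMod 5) := by
    rw [ap_eq (le_refl 5) W hD]
    unfold S5
    congr 1
    refine Finset.sum_congr rfl fun u _ => ?_
    rw [chi5]
  rw [e]
  rcases h with h | h <;> rw [h] <;> ring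

theorem main : Pool.Agent.H465.OC.Small 5 := by
  intro W hD h4 h6 _ n hn0 hn5 hn Φ hΦ t ht ht5 hdvd
  have hdv : (((t ^ 2 - 10) * PowerSeries.coeff 4 Φ - PowerSeries.coeff 24 Φ : ℤ) : (ZMod 25)) = 0 := by
    rw [ZMod.intCast_zmod_eq_zero_iff_dvd]
    norm_num at hdvd ⊢
    exact hdvd
  push_cast at hdv
  have ht' : t ^ 2 < 20 := by push_cast at ht; linarith
  have hb1 : t ≤ 4 := by nlinarith
  have hb2 : -4 ≤ t := by nlinarith
  have hD' : ¬ (5 : ℤ) ∣ W.Δ := by exact_mod_cast hD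
  have h4' : ¬ (5 : ℤ) ∣ W.c₄ := by exact_mod_cast h4
  have h6' : ¬ (5 : ℤ) ∣ W.c₆ := by exact_mod_cast h6
  have hn' : (5 : ℤ) ∣ n * W.Δ - W.c₄ ^ 3 := by exact_mod_cast hn
  have hK := key W n hD' h4' h6' hn'
  interval_cases n
  · have hP := cPhi 1 lD1 lF1 (by decide +kernel) (by decide) (by decide +kernel) Φ hΦ
    have e4 := hP 4 (by norm_num)
    have e24 := hP 24 (by norm_num)
    rw [e4, e24] at hdv
    rw [hK 2 (by decide +kernel)]
    interval_cases t <;> first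
      | rfl
      | (exfalso; revert hdv; decide)
  · have hP := cPhi 2 lD2 lF2 (by decide +kernel) (by decide) (by decide +kernel) Φ hΦ
    have e4 := hP 4 (by norm_num)
    have e24 := hP 24 (by norm_num)
    rw [e4, e24] at hdv
    rw [hK 3 (by decide +kernel)]
    interval_cases t <;> first
      | rfl
      | (exfalso; revert hdv; decide)
  · have hP := cPhi 3 lD3 lF3 (by decide +kernel) (by decide) (by decide +kernel) Φ hΦ
    have e4 := hP 4 (by norm_num)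
    have e24 := hP 24 (by norm_num)
    rw [e4, e24] at hdv
    rw [hK 0 (by decide +kernel)]
    interval_cases t <;> first
      | rfl
      | (exfalso; revert hdv; decide)
  · have hP := cPhi 4 lD4 lF4 (by decide +kernel) (by decide) (by decide +kernel) Φ hΦ
    have e4 := hP 4 (by norm_num)
    have e24 := hP 24 (by norm_num)
    rw [e4, e24] at hdv
    rw [hK 1 (by decide +kernel)]
    interval_cases t <;> first
      | rfl
      | (exfalso; revert hdv; decide)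

end Pool.Agent.H169.OCSmall5
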