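import Pool.Agent.H770.GS.UQ

/-! # UQ14: no different pair (`S_noswap`) -/

set_option autoImplicit false

namespace Pool.Agent.H169.UQ14

open Pool.Agent.H770.GS

theorem mem_dup {C : List ℝ} {z : ℝ} (hz : z ∈ C) : z ∈ dup C := by
  induction C with
  | nil => simp at hz
  | cons c L ih =>
    rw [dup]
    rcases List.mem_cons.1 hz with h | h
    · exact List.mem_cons.2 (Or.inl h)
    · exact List.mem_cons_of_mem _ (List.mem_cons_of_mem _ (ih h))

theorem noswap : S_noswap := by
  intro hS h2 hP r n L x y S C hr hr2 hM hperm hxy hSy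
  obtain ⟨hlen, hsq, hpos, hmax⟩ := hP r n L _ hr hperm hM
  have hy0 : 0 ≤ y := hpos y (by simp)
  have hpR : ∀ z ∈ S ++ dup C, 0 ≤ z := fun z hz =>
    hpos z (List.mem_cons_of_mem _ (List.mem_cons_of_mem _ hz))
  have hpS : ∀ z ∈ S, 0 ≤ z := fun z hz => hpR z (List.mem_append.2 (Or.inl hz))
  have hpC : ∀ z ∈ C, 0 ≤ z := fun z hz => hpR z (List.mem_append.2 (Or.inr (mem_dup hz)))
  have hlen2 : (qm x y :: qm x y :: (S ++ dup C)).length = n := by
    rw [← hlen]; rfl
  have hsq2 : ((qm x y :: qm x y :: (S ++ dup C)).map fun x => x ^ 2).sum = 1 := by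
    simp only [List.map_cons, List.sum_cons, qm_sq] at hsq ⊢
    linarith
  have hle := hmax _ (vec_norm hlen2 hsq2)
  by_cases hex : ∃ z ∈ S ++ dup C, 0 < z
  · exact absurd (hS n r x y S C hr hr2 hy0 hxy (fun z hz => ⟨hpS z hz, hSy z hz⟩) hpC hex hlen
      hsq) (not_lt.2 hle)
  · have hz : S ++ dup C = List.replicate (S ++ dup C).length 0 :=
      List.eq_replicate_iff.2 ⟨rfl, fun z hz =>
        le_antisymm (not_lt.1 fun h => hex ⟨z, hz, h⟩) (hpR z hz)⟩
    generalize S ++ dup C = R at *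
    generalize hk : R.length = k at *
    subst hz
    have hn : k + 2 = n := by
      rw [← hlen]
      simp
    subst hn
    have hxy1 : x ^ 2 + y ^ 2 = 1 := by
      rw [← hsq]
      simp
    exact absurd (h2 k r x y hr hy0 hxy hxy1) (not_lt.2 hle)

end Pool.Agent.H169.UQ14
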